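import Pool.Agent.helper95.BN.LLc

set_option autoImplicit false
open MeasureTheory Filter Topology Set Metric
open scoped ContDiff Gradient RealInnerProductSpace ENNReal

noncomputable section
namespace Pool.Agent.helper13.BN
variable {N : ℕ}

/-- the eigenfunctions and the lower bounds along the data -/
theorem Cr.data95 (hN : 3 ≤ N) (D : Cr N) {e : E N} (he : ‖e‖ = 1) : ∃ c n0 C : ℝ, 0 < c ∧ 0 < n0 ∧
    0 < C ∧ ∀ᶠ i in atTop, c ≤ ‖D.F1 e i‖ ∧ c ≤ ‖D.F2 e i‖ ∧ ‖D.F1 e i‖ ≤ C ∧ ‖D.F2 e i‖ ≤ C ∧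
      (n0 ≤ ∫ t in (0 : ℝ)..(D.Ls i), Real.exp (-2 * t) * yf (((0 : ℕ) : ℝ) + cc N) (D.lam1 i) t ^ 2)
      ∧ n0 ≤ ∫ t in (0 : ℝ)..(D.Ls i), Real.exp (-2 * t) * yf (D.l + cc N) (D.lam2 i) t ^ 2 := by
  obtain ⟨C, hC, hb⟩ := eig_bdd hN D he
  obtain ⟨t1, t2, p1, p2⟩ := n_tendsto hN D
  set av2 : ℝ := av N (fun s => Pz N D.l s ^ 2) with hav
  have hsplit : ∀ (lam L : ℝ), ∫ t in (0 : ℝ)..L,
      Real.exp (-2 * t) * (yf (D.l + cc N) lam t ^ 2 * av2)
      = av2 * ∫ t in (0 : ℝ)..L, Real.exp (-2 * t) * yf (D.l + cc N) lam t ^ 2 := by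
    intro lam L
    rw [← intervalIntegral.integral_const_mul]
    congr 1
    funext t
    ring
  have hint0 : ∀ (lam L : ℝ), 0 ≤ L →
      0 ≤ ∫ t in (0 : ℝ)..L, Real.exp (-2 * t) * yf (D.l + cc N) lam t ^ 2 := by
    intro lam L hL
    refine intervalIntegral.integral_nonneg hL fun t _ => ?_
    positivity
  rw [hsplit] at t2 p2
  have hI0 := hint0 D.lam D.L D.hL.le
  have hav0 : 0 < av2 := by
    rcases lt_or_ge 0 av2 with h | h
    · exact h
    · exfalso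
      have := mul_nonpos_of_nonpos_of_nonneg h hI0
      linarith
  have hIpos : 0 < ∫ t in (0 : ℝ)..D.L, Real.exp (-2 * t) * yf (D.l + cc N) D.lam t ^ 2 := by
    rcases lt_or_ge 0 (∫ t in (0 : ℝ)..D.L, Real.exp (-2 * t) * yf (D.l + cc N) D.lam t ^ 2)
      with h | h
    · exact h
    · exfalso
      have := mul_nonpos_of_nonneg_of_nonpos hav0.le h
      linarith
  have t2' : Tendsto (fun i => ∫ t in (0 : ℝ)..(D.Ls i),
      Real.exp (-2 * t) * yf (D.l + cc N) (D.lam2 i) t ^ 2) atTop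
      (𝓝 (∫ t in (0 : ℝ)..D.L, Real.exp (-2 * t) * yf (D.l + cc N) D.lam t ^ 2)) := by
    have h1 := t2.const_mul av2⁻¹
    have h2 : ∀ z : ℝ, av2⁻¹ * (av2 * z) = z := fun z => by
      field_simp
    rw [h2] at h1
    refine h1.congr fun i => ?_
    rw [hsplit, h2]
  set I1 : ℝ := ∫ t in (0 : ℝ)..D.L, Real.exp (-2 * t) * yf (cc N) D.lam t ^ 2 with hI1
  set I2 : ℝ := ∫ t in (0 : ℝ)..D.L, Real.exp (-2 * t) * yf (D.l + cc N) D.lam t ^ 2 with hI2
  refine ⟨C⁻¹, min (I1 / 2) (I2 / 2), C, by positivity, lt_min (half_pos p1) (half_pos hIpos), hC, ?_⟩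
  filter_upwards [hb, t1.eventually (lt_mem_nhds (half_lt_self p1)),
    t2'.eventually (lt_mem_nhds (half_lt_self hIpos))] with i hi h1 h2
  refine ⟨hi.2.2.2.2.2.1, hi.2.2.2.2.2.2, hi.2.2.2.1, hi.2.2.2.2.1, ?_, ?_⟩
  · rw [Nat.cast_zero, zero_add]
    exact (min_le_left _ _).trans h1.le
  · exact (min_le_right _ _).trans h2.le

/-- testing with an arbitrary mode -/
theorem mode_test95 (hN : 3 ≤ N) (D : Cr N) {e : E N} (he : ‖e‖ = 1) (j : ℕ)
    {h : ℝ → ℝ} (hh : ContDiff ℝ ∞ h) :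
    ∃ B : ℝ, 0 < B ∧ ∀ ε > 0, ∃ δ > 0, ∀ᶠ i in atTop, ∀ lam' : ℝ, |lam' - D.lam| < δ →
      ∀ w ∈ DD (D.Om i), ∀ c1 c2 : ℝ, |∫ x in D.Om i, cyl N e h (Pz N j) x * fn w x|
          ≤ B * ‖D.res95 e i lam' w c1 c2‖ + ε * ‖w‖
            + B * (|⟪D.F1 e i, w⟫| + |⟪D.F2 e i, w⟫|) := by
  obtain ⟨c, n0, C, hc, hn0, hC, hdata⟩ := D.data95 hN he
  have hl0 : D.l ≠ 0 := by
    intro h0
    have := D.hl
    rw [h0] at this
    exact absurd this (by decide)
  rcases eq_or_ne j 0 with rfl | hj0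
  · obtain ⟨B, hB, H⟩ := mode_res95 hN D he (k := 0) (k' := D.l) hl0 D.lam1 D.lam2 D.hz195 D.z2 D.t1
      hc hn0 (hdata.mono fun i hi => hi.1) (hdata.mono fun i hi => hi.2.2.2.2.1) hh
    refine ⟨B, hB, fun ε hε => ?_⟩
    obtain ⟨δ, hδ, H1⟩ := H ε hε
    refine ⟨δ, hδ, ?_⟩
    filter_upwards [H1] with i hi lam' hlam' w hw c1 c2
    have h1 := hi lam' hlam' w hw (D.res95 e i lam' w c1 c2) c1 c2 (D.res_eq95 e i lam' w c1 c2)
    have h2 : 0 ≤ B * |⟪D.F2 e i, w⟫| := by positivity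
    have h3 : |⟪eig e 0 (D.lam1 i) (D.Ls i), w⟫| = |⟪D.F1 e i, w⟫| := rfl
    rw [h3] at h1
    rw [mul_add]
    linarith
  rcases eq_or_ne j D.l with rfl | hjl
  · obtain ⟨B, hB, H⟩ := mode_res95 hN D he (k := D.l) (k' := 0) (Ne.symm hl0) D.lam2 D.lam1 D.z2
      D.hz195 D.t2 hc hn0 (hdata.mono fun i hi => hi.2.1) (hdata.mono fun i hi => hi.2.2.2.2.2) hh
    refine ⟨B, hB, fun ε hε => ?_⟩
    obtain ⟨δ, hδ, H1⟩ := H ε hε
    refine ⟨δ, hδ, ?_⟩
    filter_upwards [H1] with i hi lam' hlam' w hw c1 c2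
    have h0 : w - lam' • T (D.Om i) (fn w) = D.res95 e i lam' w c1 c2
        + c2 • eig e D.l (D.lam2 i) (D.Ls i) + c1 • eig e 0 (D.lam1 i) (D.Ls i) := by
      rw [D.res_eq95 e i lam' w c1 c2]
      change _ = D.res95 e i lam' w c1 c2 + c2 • D.F2 e i + c1 • D.F1 e i
      abel
    have h1 := hi lam' hlam' w hw (D.res95 e i lam' w c1 c2) c2 c1 h0
    have h2 : 0 ≤ B * |⟪D.F1 e i, w⟫| := by positivity
    have h3 : |⟪eig e D.l (D.lam2 i) (D.Ls i), w⟫| = |⟪D.F2 e i, w⟫| := rfl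
    rw [h3] at h1
    rw [mul_add]
    linarith
  · obtain ⟨B, δ, hB, hδ, H⟩ := mode_nonres95 hN D he hj0 hjl hh
    refine ⟨B, hB, fun ε hε => ⟨δ, hδ, ?_⟩⟩
    filter_upwards [H] with i hi lam' hlam' w hw c1 c2
    have h1 := hi lam' hlam' w hw c1 c2
    have h2 : 0 ≤ B * (|⟪D.F1 e i, w⟫| + |⟪D.F2 e i, w⟫|) := by positivity
    have h3 : 0 ≤ ε * ‖w‖ := by positivity
    linarith

/-- homogeneity of the residual -/
theorem res_smul95 (hN : 3 ≤ N) (D : Cr N) (e : E N) (i : ℕ) (lam' s : ℝ) {w : LV N}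
    (hw : w ∈ DD (D.Om i)) (c1 c2 : ℝ) :
    D.res95 e i lam' (s • w) (s * c1) (s * c2) = s • D.res95 e i lam' w c1 c2 := by
  have hwu := DD_le_univ58 (D.Om i) hw
  have hfw : Mq (td N) (D.Om i) (fn w) := Mq_fn95 hN (ann_sub_ball95 N _) hwu
    (lt_of_lt_of_le one_pos (td_ge_one95 hN)) ((td_le_two95 N).trans (ts_gt hN).le)
  have h1 : T (D.Om i) (fn (s • w)) = s • T (D.Om i) (fn w) := by
    have h2 := T_smul hN (Ω := D.Om i) (meas_ann95 N _) s hfw
    rw [← h2]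
    refine T_congr (meas_ann95 N _) ?_
    filter_upwards [fn_smul hN s hwu] with x hx _
    exact hx
  unfold Cr.res95
  rw [h1, smul_sub, smul_sub, smul_sub, smul_smul, smul_smul, smul_smul, smul_smul,
    mul_comm s lam']

theorem T_le_two95 (hN : 3 ≤ N) : ∃ C : ℝ, 0 < C ∧ ∀ (Ω : Set (E N)), Ω ⊆ ball 0 1 →
    MeasurableSet Ω → ∀ w ∈ DD Ω, Mq 2 univ (fn w) ∧
      ‖T Ω (fn w)‖ ≤ C * nq 2 univ (fn w) := by
  obtain ⟨C, hC, h⟩ := exists_nq_le (N := N) (R := 1) (td_ge_one95 hN) (td_le_two95 N)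
  obtain ⟨S, hS, hsob⟩ := exists_sob_q hN 1 (q := 2) (by norm_num) (ts_gt hN).le
  refine ⟨SS N * C, mul_pos SS_pos hC, fun Ω hΩ hm w hw => ?_⟩
  have hwu := DD_le_univ58 Ω hw
  have h2 : Mq 2 univ (fn w) := (hsob w (DD_mono hΩ hw)).1
  have h2Ω : Mq 2 Ω (fn w) := Mq_univ58 Ω h2
  have hfw : Mq (td N) Ω (fn w) := Mq_mono hΩ (lt_of_lt_of_le one_pos (td_ge_one95 hN))
    (td_le_two95 N) h2Ω
  refine ⟨h2, ?_⟩
  calc ‖T Ω (fn w)‖ ≤ SS N * nq (td N) Ω (fn w) := T_norm hN hm hfw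
    _ ≤ SS N * (C * nq 2 Ω (fn w)) :=
        mul_le_mul_of_nonneg_left (h Ω hΩ _ h2Ω) SS_pos.le
    _ ≤ SS N * (C * nq 2 univ (fn w)) := by
        refine mul_le_mul_of_nonneg_left (mul_le_mul_of_nonneg_left ?_ hC.le) SS_pos.le
        exact nq_mono_set58 Ω h2
    _ = SS N * C * nq 2 univ (fn w) := by ring

/-- the compactness argument -/
theorem LL_seq95 (hN : 3 ≤ N) (D : Cr N) {e : E N} (he : ‖e‖ = 1) (i : ℕ → ℕ)
    (hi : Tendsto i atTop atTop) (lam' c1 c2 : ℕ → ℝ) (w : ℕ → LV N)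
    (hlam : Tendsto lam' atTop (𝓝 D.lam)) (hw : ∀ n, w n ∈ XS e (D.rho (i n)))
    (h1 : ∀ n, ‖w n‖ + |c1 n| + |c2 n| = 1)
    (hres : Tendsto (fun n => ‖D.res95 e (i n) (lam' n) (w n) (c1 n) (c2 n)‖
      + |⟪D.F1 e (i n), w n⟫| + |⟪D.F2 e (i n), w n⟫|) atTop (𝓝 0)) : False := by
  have hDD : ∀ n, w n ∈ DD (D.Om (i n)) := fun n => ((mem_XS hN).1 (hw n)).1
  have hball : ∀ n, w n ∈ DD (ball (0 : E N) 1) := fun n => DD_mono (ann_sub_ball95 N _) (hDD n)
  have hn1 : ∀ n, ‖w n‖ ≤ 1 := fun n => by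
    have := h1 n
    have := abs_nonneg (c1 n)
    have := abs_nonneg (c2 n)
    linarith
  obtain ⟨k, v, hk, hv, -, hlim⟩ := rellich hN hball hn1
  have hkt : Tendsto k atTop atTop := hk.tendsto_atTop
  have hik : Tendsto (fun n => i (k n)) atTop atTop := hi.comp hkt
  obtain ⟨S, hS, hsob⟩ := exists_sob_q hN 1 (q := 2) (by norm_num) (ts_gt hN).le
  have hfv : Mq 2 univ (fn v) := (hsob v hv).1
  have hfw : ∀ n, Mq 2 univ (fn (w n)) := fun n => (hsob _ (hball n)).1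
  have h2eq : ENNReal.ofReal 2 = 2 := by simp
  have hfv' : MemLp (fn v) 2 volume := by
    have := hfv
    unfold Mq at this
    rwa [h2eq, Measure.restrict_univ] at this
  have hfw' : ∀ n, MemLp (fn (w n)) 2 volume := fun n => by
    have := hfw n
    unfold Mq at this
    rwa [h2eq, Measure.restrict_univ] at this
  have hlim' : Tendsto (fun n => eLpNorm (fun x => fn (w (k n)) x - fn v x) 2 volume) atTop
      (𝓝 0) := by
    have hne : ∀ n, eLpNorm (fun x => fn (w (k n)) x - fn v x) 2 volume ≠ ⊤ := fun n =>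
      ((hfw' (k n)).sub hfv').2.ne
    have := (ENNReal.tendsto_toReal_iff (fi := atTop) hne ENNReal.zero_ne_top).1
    rw [ENNReal.toReal_zero] at this
    refine this ?_
    have h3 := hlim
    unfold nq at h3
    rw [h2eq, Measure.restrict_univ] at h3
    exact h3
  -- the big annulus
  set ρ' : ℝ := Real.exp (-(D.L + 1)) with hρ'
  have hρ'0 : 0 < ρ' := Real.exp_pos _
  have hρ'1 : ρ' < 1 := exp_neg_lt_one95 (by have := D.hL; linarith)
  have hsub : ∀ᶠ n in atTop, D.Om (i (k n)) ⊆ ann N ρ' := by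
    filter_upwards [hik.eventually (near_L95 D one_pos)] with n hn x hx
    refine ⟨lt_of_le_of_lt ?_ hx.1, hx.2⟩
    refine Real.exp_le_exp.2 ?_
    have := (abs_lt.1 hn).2
    linarith
  -- testing
  have htest : ∀ (j : ℕ) (h : ℝ → ℝ), ContDiff ℝ ∞ h →
      ∫ x in ann N ρ', fn v x * cyl N e h (Pz N j) x = 0 := by
    intro j h hh
    obtain ⟨B, hB, H⟩ := mode_test95 hN D he j hh
    have hg : ∀ q, MemLp ((ann N ρ').indicator (cyl N e h (Pz N j))) q volume := fun q =>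
      (memLp_indicator_iff_restrict (meas_ann95 N ρ')).2 (cyl_memLp hρ'0 e hh.continuous j q)
    have hconv := tendsto_mul_Lp (p := 2) (by norm_num) (fun n => hfw' (k n)) hfv' hg hlim'
    have hset : ∀ f : E N → ℝ, ∫ x, f x * (ann N ρ').indicator (cyl N e h (Pz N j)) x
        = ∫ x in ann N ρ', f x * cyl N e h (Pz N j) x := by
      intro f
      rw [← integral_indicator (meas_ann95 N ρ')]
      congr 1
      funext x
      by_cases hx : x ∈ ann N ρ'
      · rw [indicator_of_mem hx, indicator_of_mem hx]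
      · rw [indicator_of_notMem hx, indicator_of_notMem hx, mul_zero]
    rw [hset] at hconv
    refine tendsto_nhds_unique hconv ?_
    have hzero : Tendsto (fun n => ∫ x in D.Om (i (k n)), cyl N e h (Pz N j) x * fn (w (k n)) x)
        atTop (𝓝 0) := by
      rw [Metric.tendsto_atTop']
      intro ε hε
      obtain ⟨δ, hδ, H1⟩ := H (ε / 3) (by positivity)
      have a1 := hik.eventually H1
      have a2 : ∀ᶠ n in atTop, |lam' (k n) - D.lam| < δ := by
        have := (hlam.comp hkt).eventually (Metric.ball_mem_nhds D.lam hδ)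
        filter_upwards [this] with n hn
        simpa [Real.dist_eq] using hn
      have a3 := (hres.comp hkt).eventually_lt_const
        (show (0 : ℝ) < ε / (3 * B) by positivity)
      obtain ⟨M, hM⟩ := eventually_atTop.1 (a1.and (a2.and a3))
      refine ⟨M, fun n hn => ?_⟩
      obtain ⟨b1, b2, b3⟩ := hM n hn.le
      have b4 := b1 (lam' (k n)) b2 (w (k n)) (hDD (k n)) (c1 (k n)) (c2 (k n))
      rw [Real.dist_eq, sub_zero]
      have b5 : ε / 3 * ‖w (k n)‖ ≤ ε / 3 := by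
        have := hn1 (k n)
        nlinarith
      have b6 : B * (‖D.res95 e (i (k n)) (lam' (k n)) (w (k n)) (c1 (k n)) (c2 (k n))‖
          + |⟪D.F1 e (i (k n)), w (k n)⟫| + |⟪D.F2 e (i (k n)), w (k n)⟫|) < ε / 3 := by
        have h5 : B * (‖D.res95 e (i (k n)) (lam' (k n)) (w (k n)) (c1 (k n)) (c2 (k n))‖
          + |⟪D.F1 e (i (k n)), w (k n)⟫| + |⟪D.F2 e (i (k n)), w (k n)⟫|) < B * (ε / (3 * B)) :=
          mul_lt_mul_of_pos_left b3 hB
        have h6 : B * (ε / (3 * B)) = ε / 3 := by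
          field_simp
        rwa [h6] at h5
      rw [mul_add, mul_add] at b6
      rw [mul_add] at b4
      linarith
    refine hzero.congr' ?_
    filter_upwards [hsub] with n hn
    rw [hset]
    symm
    have : ∀ᵐ x, x ∈ ann N ρ' \ D.Om (i (k n)) →
        fn (w (k n)) x * cyl N e h (Pz N j) x = 0 := by
      filter_upwards [fn_zero_off hN (hDD (k n))] with x hx hx'
      rw [hx hx'.2, zero_mul]
    rw [setIntegral_eq_of_subset_of_ae_sdiff_eq_zero (meas_ann95 N ρ').nullMeasurableSet hn this]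
    congr 1
    funext x
    ring
  -- the limit vanishes
  have hAx : Axial e (fn v) := by
    refine axial_lim (q := 2) (by norm_num) (h := fun n => fn (w (k n)))
      (fun n => ((mem_XS hN).1 (hw (k n))).2) (fn_meas v) ?_
    rw [h2eq]
    exact hlim'
  have hin : ∀ᵐ x, x ∈ ann N ρ' → fn v x = 0 :=
    modes_dense hN hρ'0 hρ'1 he hAx (Mq_univ58 _ hfv) htest
  have hout : ∀ᵐ x, x ∉ ann N ρ' → fn v x = 0 := by
    have h5 : eLpNorm (fn v) 2 (volume.restrict (ann N ρ')ᶜ) = 0 := by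
      refine le_antisymm ?_ zero_le
      refine ge_of_tendsto hlim' ?_
      filter_upwards [hsub] with n hn
      have h6 : eLpNorm (fn v) 2 (volume.restrict (ann N ρ')ᶜ)
          = eLpNorm (fun x => fn (w (k n)) x - fn v x) 2 (volume.restrict (ann N ρ')ᶜ) := by
        rw [← eLpNorm_neg]
        refine eLpNorm_congr_ae ?_
        have h7 := fn_zero_off hN (hDD (k n))
        rw [Filter.EventuallyEq, ae_restrict_iff' (meas_ann95 N ρ').compl]
        filter_upwards [h7] with x hx hx'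
        rw [hx (fun h => hx' (hn h)), zero_sub]
        rfl
      rw [h6]
      exact eLpNorm_mono_measure _ Measure.restrict_le_self
    rw [eLpNorm_eq_zero_iff (fn_meas v).restrict (by norm_num), Filter.EventuallyEq,
      ae_restrict_iff' (meas_ann95 N ρ').compl] at h5
    filter_upwards [h5] with x hx hx'
    exact hx hx'
  have hv0 : fn v =ᵐ[volume] fun _ => 0 := by
    filter_upwards [hin, hout] with x h3 h4
    by_cases hx : x ∈ ann N ρ'
    · exact h3 hx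
    · exact h4 hx
  have hnq : Tendsto (fun n => nq 2 univ (fn (w (k n)))) atTop (𝓝 0) := by
    refine hlim.congr fun n => ?_
    unfold nq
    congr 1
    refine eLpNorm_congr_ae ?_
    rw [Measure.restrict_univ]
    filter_upwards [hv0] with x hx
    rw [hx, sub_zero]
  -- conclusion
  obtain ⟨C2, hC2, hT⟩ := T_le_two95 hN
  obtain ⟨c, n0, C, hc, hn0, hC, hdata⟩ := D.data95 hN he
  have hTt : Tendsto (fun n => lam' (k n) • T (D.Om (i (k n))) (fn (w (k n)))) atTop (𝓝 0) := by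
    have t1 : Tendsto (fun n => T (D.Om (i (k n))) (fn (w (k n)))) atTop (𝓝 0) := by
      rw [tendsto_zero_iff_norm_tendsto_zero]
      have t2 := hnq.const_mul C2
      rw [mul_zero] at t2
      exact squeeze_zero (fun n => norm_nonneg _)
        (fun n => (hT _ (ann_sub_ball95 N _) (meas_ann95 N _) _ (hDD (k n))).2) t2
    have t3 := (hlam.comp hkt).smul t1
    rw [smul_zero] at t3
    exact t3
  set E1 : ℕ → ℝ := fun n => ‖D.res95 e (i (k n)) (lam' (k n)) (w (k n)) (c1 (k n)) (c2 (k n))‖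
      + |⟪D.F1 e (i (k n)), w (k n)⟫| + |⟪D.F2 e (i (k n)), w (k n)⟫| with hE1
  have hE1t : Tendsto E1 atTop (𝓝 0) := hres.comp hkt
  set E2 : ℕ → ℝ := fun n => E1 n + ‖lam' (k n) • T (D.Om (i (k n))) (fn (w (k n)))‖ with hE2
  have hE2t : Tendsto E2 atTop (𝓝 0) := by
    have := hE1t.add hTt.norm
    rwa [norm_zero, add_zero] at this
  have hfin : ∀ᶠ n in atTop, (1 : ℝ) ≤ (1 + 2 * (C * ((1 + C) / c ^ 2)) + 2 * ((1 + C) / c ^ 2))
      * E2 n := by
    filter_upwards [hik.eventually hdata] with n hn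
    obtain ⟨d1, d2, d3, d4, -, -⟩ := hn
    set F1 := D.F1 e (i (k n)) with hF1
    set F2 := D.F2 e (i (k n)) with hF2
    set r := w (k n) - c1 (k n) • F1 - c2 (k n) • F2 with hr
    have hrle : ‖r‖ + |⟪F1, w (k n)⟫| + |⟪F2, w (k n)⟫| ≤ E2 n := by
      have : r = D.res95 e (i (k n)) (lam' (k n)) (w (k n)) (c1 (k n)) (c2 (k n))
          + lam' (k n) • T (D.Om (i (k n))) (fn (w (k n))) := by
        rw [hr]
        unfold Cr.res95
        abel
      rw [this]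
      have := norm_add_le (D.res95 e (i (k n)) (lam' (k n)) (w (k n)) (c1 (k n)) (c2 (k n)))
        (lam' (k n) • T (D.Om (i (k n))) (fn (w (k n))))
      change _ ≤ ‖D.res95 e (i (k n)) (lam' (k n)) (w (k n)) (c1 (k n)) (c2 (k n))‖
        + |⟪F1, w (k n)⟫| + |⟪F2, w (k n)⟫| + ‖lam' (k n) • T (D.Om (i (k n))) (fn (w (k n)))‖
      linarith
    have hl0 : D.l ≠ 0 := by
      intro h0
      have := D.hl
      rw [h0] at this
      exact absurd this (by decide)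
    have s1 := eig_spec hN he (D.posL (i (k n))) (D.hz195 (i (k n)))
    have s2 := eig_spec hN he (D.posL (i (k n))) (D.z2 (i (k n)))
    have o12 : ⟪F1, F2⟫ = 0 :=
      eig_mode_orth95 hN he (Ne.symm hl0) (D.posL _) (D.hz195 _) ((mem_XS hN).1 s2.1).1
        (yf_contDiff _ _).continuous s2.2.1
    have o21 : ⟪F2, F1⟫ = 0 := by rw [real_inner_comm]; exact o12
    have hE0 : 0 ≤ E2 n := by
      have := norm_nonneg r
      have := abs_nonneg ⟪F1, w (k n)⟫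
      have := abs_nonneg ⟪F2, w (k n)⟫
      linarith
    have hrE : ‖r‖ ≤ E2 n := by
      have := abs_nonneg ⟪F1, w (k n)⟫
      have := abs_nonneg ⟪F2, w (k n)⟫
      linarith
    have key : ∀ (F F' : LV N) (a b : ℝ), r = w (k n) - a • F - b • F' → ⟪F, F'⟫ = 0 →
        c ≤ ‖F‖ → ‖F‖ ≤ C → |⟪F, w (k n)⟫| ≤ E2 n → |a| ≤ (1 + C) / c ^ 2 * E2 n := by
      intro F F' a b hrr ho hc1 hC1 hFw
      have e1 : a * ‖F‖ ^ 2 = ⟪F, w (k n)⟫ - ⟪F, r⟫ := by
        rw [hrr, inner_sub_right, inner_sub_right, real_inner_smul_right, real_inner_smul_right,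
          ho, real_inner_self_eq_norm_sq]
        ring
      have e2 : |a| * ‖F‖ ^ 2 ≤ (1 + C) * E2 n := by
        have : |a| * ‖F‖ ^ 2 = |⟪F, w (k n)⟫ - ⟪F, r⟫| := by
          rw [← e1, abs_mul, abs_of_nonneg (by positivity : (0 : ℝ) ≤ ‖F‖ ^ 2)]
        rw [this]
        refine (abs_sub _ _).trans ?_
        have h8 := abs_real_inner_le_norm F r
        have h9 : ‖F‖ * ‖r‖ ≤ C * E2 n := mul_le_mul hC1 hrE (norm_nonneg _) hC.le
        linarith
      have e3 : |a| * c ^ 2 ≤ |a| * ‖F‖ ^ 2 := by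
        refine mul_le_mul_of_nonneg_left ?_ (abs_nonneg _)
        exact pow_le_pow_left₀ hc.le hc1 2
      rw [div_mul_eq_mul_div, le_div_iff₀ (by positivity)]
      linarith
    have k1 : |c1 (k n)| ≤ (1 + C) / c ^ 2 * E2 n := by
      refine key F1 F2 (c1 (k n)) (c2 (k n)) rfl o12 d1 d3 ?_
      have := norm_nonneg r
      have := abs_nonneg ⟪F2, w (k n)⟫
      linarith
    have k2 : |c2 (k n)| ≤ (1 + C) / c ^ 2 * E2 n := by
      refine key F2 F1 (c2 (k n)) (c1 (k n)) ?_ o21 d2 d4 ?_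
      · rw [hr]
        abel
      · have := norm_nonneg r
        have := abs_nonneg ⟪F1, w (k n)⟫
        linarith
    have k3 : ‖w (k n)‖ ≤ ‖r‖ + |c1 (k n)| * C + |c2 (k n)| * C := by
      have : w (k n) = r + c1 (k n) • F1 + c2 (k n) • F2 := by
        rw [hr]
        abel
      calc ‖w (k n)‖ = ‖r + c1 (k n) • F1 + c2 (k n) • F2‖ := by rw [← this]
        _ ≤ ‖r‖ + ‖c1 (k n) • F1‖ + ‖c2 (k n) • F2‖ := norm_add₃_le
        _ ≤ ‖r‖ + |c1 (k n)| * C + |c2 (k n)| * C := by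
            rw [norm_smul, norm_smul, Real.norm_eq_abs, Real.norm_eq_abs]
            gcongr
    have k4 := h1 (k n)
    have k5 : |c1 (k n)| * C ≤ (1 + C) / c ^ 2 * E2 n * C := mul_le_mul_of_nonneg_right k1 hC.le
    have k6 : |c2 (k n)| * C ≤ (1 + C) / c ^ 2 * E2 n * C := mul_le_mul_of_nonneg_right k2 hC.le
    nlinarith
  have hlast : Tendsto (fun n => (1 + 2 * (C * ((1 + C) / c ^ 2)) + 2 * ((1 + C) / c ^ 2)) * E2 n)
      atTop (𝓝 0) := by
    have := hE2t.const_mul (1 + 2 * (C * ((1 + C) / c ^ 2)) + 2 * ((1 + C) / c ^ 2))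
    rwa [mul_zero] at this
  have := ge_of_tendsto hlast hfin
  linarith

/-- THE LINEAR THEORY near the crossing -/
theorem LL (hN : 3 ≤ N) (D : Cr N) {e : E N} (he : ‖e‖ = 1) : ∃ m δ : ℝ, 0 < m ∧ 0 < δ ∧
    ∀ᶠ i in atTop, ∀ lam' : ℝ, |lam' - D.lam| < δ → ∀ w ∈ XS e (D.rho i), ∀ c1 c2 : ℝ,
      m * (‖w‖ + |c1| + |c2|) ≤ ‖w - lam' • T (D.Om i) (fn w) - c1 • D.F1 e i - c2 • D.F2 e i‖
        + |⟪D.F1 e i, w⟫| + |⟪D.F2 e i, w⟫| := by
  by_contra hcon
  push Not at hcon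
  have hstep : ∀ n : ℕ, ∃ (i : ℕ) (lam' : ℝ) (w : LV N) (c1 c2 : ℝ), n ≤ i ∧
      |lam' - D.lam| < 1 / ((n : ℝ) + 1) ∧ w ∈ XS e (D.rho i) ∧ ‖w‖ + |c1| + |c2| = 1 ∧
      ‖D.res95 e i lam' w c1 c2‖ + |⟪D.F1 e i, w⟫| + |⟪D.F2 e i, w⟫| ≤ 1 / ((n : ℝ) + 1) := by
    intro n
    have hpos : 0 < 1 / ((n : ℝ) + 1) := by positivity
    have h1 := hcon (1 / ((n : ℝ) + 1)) (1 / ((n : ℝ) + 1)) hpos hpos
    rw [Filter.frequently_atTop] at h1
    obtain ⟨i, hi, lam', hlam', w, hw, c1, c2, hlt⟩ := h1 n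
    have hSnn : 0 ≤ ‖w‖ + |c1| + |c2| := by positivity
    have hS : 0 < ‖w‖ + |c1| + |c2| := by
      rcases hSnn.eq_or_lt with h | h
      · rw [← h, mul_zero] at hlt
        have := norm_nonneg (w - lam' • T (D.Om i) (fn w) - c1 • D.F1 e i - c2 • D.F2 e i)
        have := abs_nonneg ⟪D.F1 e i, w⟫
        have := abs_nonneg ⟪D.F2 e i, w⟫
        linarith
      · exact h
    set S := ‖w‖ + |c1| + |c2| with hSdef
    refine ⟨i, lam', S⁻¹ • w, S⁻¹ * c1, S⁻¹ * c2, hi, hlam', Submodule.smul_mem _ _ hw, ?_, ?_⟩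
    · rw [norm_smul, abs_mul, abs_mul, Real.norm_eq_abs, abs_of_pos (inv_pos.2 hS), ← mul_add,
        ← mul_add, ← hSdef, inv_mul_cancel₀ hS.ne']
    · rw [res_smul95 hN D e i lam' S⁻¹ ((mem_XS hN).1 hw).1, norm_smul, real_inner_smul_right,
        real_inner_smul_right, abs_mul, abs_mul, Real.norm_eq_abs, abs_of_pos (inv_pos.2 hS),
        ← mul_add, ← mul_add]
      have hlt' : ‖D.res95 e i lam' w c1 c2‖ + |⟪D.F1 e i, w⟫| + |⟪D.F2 e i, w⟫|
          < 1 / ((n : ℝ) + 1) * S := hlt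
      have h5 : S⁻¹ * (‖D.res95 e i lam' w c1 c2‖ + |⟪D.F1 e i, w⟫| + |⟪D.F2 e i, w⟫|)
          ≤ S⁻¹ * (1 / ((n : ℝ) + 1) * S) :=
        mul_le_mul_of_nonneg_left hlt'.le (inv_pos.2 hS).le
      have h6 : S⁻¹ * (1 / ((n : ℝ) + 1) * S) = 1 / ((n : ℝ) + 1) := by
        field_simp
      rwa [h6] at h5
  choose i lam' w c1 c2 hi hlam' hw hS hle using hstep
  refine LL_seq95 hN D he i (tendsto_atTop_mono hi tendsto_id) lam' c1 c2 w ?_ hw hS ?_
  · rw [tendsto_iff_dist_tendsto_zero]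
    refine squeeze_zero (fun n => dist_nonneg) (fun n => ?_) tendsto_one_div_add_atTop_nhds_zero_nat
    rw [Real.dist_eq]
    exact (hlam' n).le
  · exact squeeze_zero (fun n => by positivity) hle tendsto_one_div_add_atTop_nhds_zero_nat

end Pool.Agent.helper13.BN
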