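import Pool.Agent.helper13.BN.Defs2
import Pool.Agent.helper40.BN.Lap
import Pool.Agent.helper23.BN.Basic
import Pool.Agent.helper70.BN.Rellich
import Pool.Agent.helper58.BN.Solve
import Pool.Agent.helper73.BN.Zonal
import Pool.Agent.helper53.BN.Dens
import Pool.Agent.helper52.BN.OdeDir
import Pool.Agent.helper22.BN.Smooth
import Pool.Agent.helper22.BN.AxSp
import Pool.Agent.helper24.BN.Conf
import Pool.Agent.helper38.BN.Eig

set_option autoImplicit false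
open MeasureTheory Filter Topology Set Metric
open scoped ContDiff Gradient RealInnerProductSpace ENNReal

noncomputable section
namespace Pool.Agent.helper13.BN
variable {N : ℕ}

theorem two_le_inf95 : (2 : WithTop ℕ∞) ≤ ((⊤ : ℕ∞) : WithTop ℕ∞) := by
  exact (WithTop.coe_le_coe.2 le_top : ((2 : ℕ∞) : WithTop ℕ∞) ≤ ((⊤ : ℕ∞) : WithTop ℕ∞))

theorem cc_pos95 (hN : 3 ≤ N) : 0 < cc N := by
  have h : (3 : ℝ) ≤ N := by exact_mod_cast hN
  unfold cc
  linarith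

theorem ann_sub_ball95 (N : ℕ) (ρ : ℝ) : ann N ρ ⊆ ball (0 : E N) 1 := fun x hx => by
  simpa using hx.2

theorem meas_ann95 (N : ℕ) (ρ : ℝ) : MeasurableSet (ann N ρ) := (isOpen_ann' N ρ).measurableSet

theorem weak_congr95 {Ω : Set (E N)} {w : LV N} {g g' : E N → ℝ} (h : ∀ x ∈ Ω, g x = g' x)
    (hw : Weak Ω w g) : Weak Ω w g' := by
  refine ⟨hw.1, fun φ W hφ hW => ?_⟩
  rw [hw.2 φ W hφ hW]
  congr 1
  funext x
  by_cases hx : x ∈ Ω
  · rw [h x hx]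
  · have : φ x = 0 := by
      by_contra h0
      exact hx (hφ.2.2 (subset_tsupport _ h0))
    rw [this, mul_zero, mul_zero]

theorem contDiffAt_cyl95 {e : E N} {x : E N} (hx : x ≠ 0) {y q : ℝ → ℝ}
    (hy : ContDiff ℝ ∞ y) (hq : ContDiff ℝ ∞ q) : ContDiffAt ℝ 2 (cyl N e y q) x := by
  have h0 : ‖x‖ ≠ 0 := norm_ne_zero_iff.2 hx
  have hn : ContDiffAt ℝ 2 (fun z : E N => ‖z‖) x := contDiffAt_norm ℝ hx
  have hy2 : ContDiff ℝ 2 y := hy.of_le two_le_inf95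
  have hq2 : ContDiff ℝ 2 q := hq.of_le two_le_inf95
  unfold cyl
  refine ContDiffAt.mul (ContDiffAt.mul ?_ ?_) ?_
  · exact hn.rpow_const_of_ne h0
  · exact hy2.contDiffAt.comp x (hn.log h0).neg
  · refine hq2.contDiffAt.comp x (ContDiffAt.div ?_ hn h0)
    exact (contDiff_id.inner ℝ contDiff_const).contDiffAt

/-- the Laplacian of a mode solving the radial equation -/
theorem lap_mode95 (hN : 3 ≤ N) {e : E N} (he : ‖e‖ = 1) {x : E N} (hx : x ≠ 0) (j : ℕ) {lam : ℝ}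
    {y h : ℝ → ℝ} (hy : ContDiff ℝ ∞ y)
    (hode : ∀ t, deriv (deriv y) t = qf (j + cc N) lam t * y t - Real.exp (-2 * t) * h t) :
    - lap (cyl N e y (Pz N j)) x
      = lam * cyl N e y (Pz N j) x + cyl N e h (Pz N j) x := by
  have h0 : 0 < ‖x‖ := norm_pos_iff.2 hx
  rw [lap_cyl he hx (hy.of_le two_le_inf95)
    ((Pz_contDiff N j).of_le two_le_inf95), Pz_ode N j hN, hode]
  have hexp : Real.exp (-2 * (-Real.log ‖x‖)) = ‖x‖ ^ (2 : ℝ) := by
    rw [Real.rpow_def_of_pos h0]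
    congr 1
    ring
  have hpow : ‖x‖ ^ (-cc N - 2) * ‖x‖ ^ (2 : ℝ) = ‖x‖ ^ (-cc N) := by
    rw [← Real.rpow_add h0]
    congr 1
    ring
  unfold cyl qf
  rw [hexp, ← hpow]
  unfold cc
  ring

theorem cyl_bound95 (hN : 3 ≤ N) {e : E N} (he : ‖e‖ = 1) {ρ : ℝ} (hρ : 0 < ρ) (j : ℕ)
    {y : ℝ → ℝ} {B : ℝ} (hB : ∀ t ∈ Icc 0 (-Real.log ρ), |y t| ≤ B) :
    ∀ x ∈ ann N ρ, |cyl N e y (Pz N j) x| ≤ ρ ^ (-cc N) * B := by
  intro x hx
  have h0 : 0 < ‖x‖ := hρ.trans hx.1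
  have ht : -Real.log ‖x‖ ∈ Icc 0 (-Real.log ρ) := by
    constructor
    · have := Real.log_nonpos h0.le hx.2.le
      linarith
    · have := Real.log_le_log hρ hx.1.le
      linarith
  have h1 := hB _ ht
  have hB0 : 0 ≤ B := (abs_nonneg _).trans h1
  have h2 : ‖x‖ ^ (-cc N) ≤ ρ ^ (-cc N) :=
    Real.rpow_le_rpow_of_nonpos hρ hx.1.le (by have := cc_pos95 hN; linarith)
  have h3 : |Pz N j (⟪x, e⟫ / ‖x‖)| ≤ 1 := by
    refine Pz_abs_le N j hN ?_
    rw [abs_div, abs_norm, div_le_one h0]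
    have := abs_real_inner_le_norm x e
    rwa [he, mul_one] at this
  unfold cyl
  rw [abs_mul, abs_mul, abs_of_nonneg (Real.rpow_nonneg h0.le _)]
  calc ‖x‖ ^ (-cc N) * |y (-Real.log ‖x‖)| * |Pz N j (⟪x, e⟫ / ‖x‖)|
      ≤ (ρ ^ (-cc N) * B) * 1 := by
        refine mul_le_mul ?_ h3 (abs_nonneg _) (by positivity)
        exact mul_le_mul h2 h1 (abs_nonneg _) (by positivity)
    _ = ρ ^ (-cc N) * B := by ring

/-- the weak solution given by a mode -/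
theorem mode_weak95 (hN : 3 ≤ N) {e : E N} (he : ‖e‖ = 1) (j : ℕ) {lam L : ℝ} (hL : 0 < L)
    {y h : ℝ → ℝ} (hy : ContDiff ℝ ∞ y) (hy0 : y 0 = 0) (hyL : y L = 0)
    (hode : ∀ t, deriv (deriv y) t = qf (j + cc N) lam t * y t - Real.exp (-2 * t) * h t) :
    ∃ w : LV N, Weak (ann N (Real.exp (-L))) w
        (fun x => lam * cyl N e y (Pz N j) x + cyl N e h (Pz N j) x) ∧
      fn w =ᵐ[volume] (ann N (Real.exp (-L))).indicator (cyl N e y (Pz N j)) := by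
  have hρ : 0 < Real.exp (-L) := Real.exp_pos _
  have hρ1 : Real.exp (-L) < 1 := by
    rw [Real.exp_lt_one_iff]
    linarith
  obtain ⟨w, hw, hfn, -⟩ := weak_C2 hN hρ hρ1 (G := cyl N e y (Pz N j))
    (fun x hx => contDiffAt_cyl95 hx hy (Pz_contDiff N j))
    (fun x hx => by
      unfold cyl
      rw [hx, Real.log_one, neg_zero, hy0]
      simp)
    (fun x hx => by
      unfold cyl
      rw [hx, Real.log_exp, neg_neg, hyL]
      simp)
  refine ⟨w, weak_congr95 ?_ hw, hfn⟩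
  intro x hx
  have hx0 : x ≠ 0 := by
    rintro rfl
    have := hx.1
    rw [norm_zero] at this
    linarith
  exact lap_mode95 hN he hx0 j hy hode

/-- bounded functions on subsets of the unit ball -/
theorem exists_nq_bdd95 (N : ℕ) {q : ℝ} (hq : 1 ≤ q) : ∃ C : ℝ, 0 < C ∧ ∀ (Ω : Set (E N)),
    Ω ⊆ ball 0 1 → MeasurableSet Ω → ∀ (g : E N → ℝ) (B : ℝ),
      AEStronglyMeasurable g (volume.restrict Ω) → 0 ≤ B → (∀ x ∈ Ω, |g x| ≤ B) →
      Mq q Ω g ∧ nq q Ω g ≤ C * B := by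
  obtain ⟨V, hV⟩ : ∃ V : ℝ≥0∞, V = (volume : Measure (E N)) (ball 0 1) ^ (1 / q) := ⟨_, rfl⟩
  have hq0 : 0 < q := by linarith
  have hVtop : V ≠ ⊤ := by
    rw [hV]
    exact (ENNReal.rpow_lt_top_of_nonneg (by positivity) measure_ball_lt_top.ne).ne
  refine ⟨V.toReal + 1, by positivity, fun Ω hΩ hm g B hg hB hgB => ?_⟩
  have hfin : IsFiniteMeasure (volume.restrict Ω) :=
    ⟨by rw [Measure.restrict_apply_univ]; exact vol_lt_top58 hΩ⟩
  have hae : ∀ᵐ x ∂(volume.restrict Ω), ‖g x‖ ≤ B := by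
    filter_upwards [ae_restrict_mem hm] with x hx
    exact hgB x hx
  refine ⟨MemLp.of_bound hg B hae, ?_⟩
  have h1 := eLpNorm_le_of_ae_bound (p := ENNReal.ofReal q) hae
  rw [Measure.restrict_apply_univ, ENNReal.toReal_ofReal hq0.le] at h1
  have h2 : eLpNorm g (ENNReal.ofReal q) (volume.restrict Ω) ≤ V * ENNReal.ofReal B := by
    refine h1.trans (mul_le_mul_left ?_ _)
    rw [hV, one_div]
    exact ENNReal.rpow_le_rpow (measure_mono hΩ) (by positivity)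
  have h3 : nq q Ω g ≤ V.toReal * B := by
    unfold nq
    have := ENNReal.toReal_mono (ENNReal.mul_ne_top hVtop ENNReal.ofReal_ne_top) h2
    rwa [ENNReal.toReal_mul, ENNReal.toReal_ofReal hB] at this
  nlinarith

theorem td_ge_one95 (hN : 3 ≤ N) : 1 ≤ td N := by
  have h : (3 : ℝ) ≤ N := by exact_mod_cast hN
  unfold td
  rw [le_div_iff₀ (by positivity)]
  linarith

theorem td_le_two95 (N : ℕ) : td N ≤ 2 := by
  unfold td
  rw [div_le_iff₀ (by positivity)]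
  linarith

theorem Mq_fn95 (hN : 3 ≤ N) {Ω : Set (E N)} (hΩ : Ω ⊆ ball 0 1) {w : LV N}
    (hw : w ∈ DD (univ : Set (E N))) {q : ℝ} (hq0 : 0 < q) (hq : q ≤ ts N) : Mq q Ω (fn w) :=
  Mq_mono hΩ hq0 hq (Mq_univ58 Ω (sobolev hN hw).1)

/-- pairing of the residual with the solution of a dual problem -/
theorem pair_core95 (hN : 3 ≤ N) {Ω : Set (E N)} (hΩ : Ω ⊆ ball 0 1) (hm : MeasurableSet Ω)
    {Ψ w : LV N} {g ψ : E N → ℝ} (hg : Mq (td N) Ω g) (hΨ : Weak Ω Ψ g)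
    (hfn : fn Ψ =ᵐ[volume] Ω.indicator ψ) (hw : w ∈ DD Ω) (lam : ℝ) :
    ⟪w - lam • T Ω (fn w), Ψ⟫ = (∫ x in Ω, g x * fn w x) - lam * ∫ x in Ω, ψ x * fn w x := by
  have hts : td N ≤ ts N := (td_le_two95 N).trans (ts_gt hN).le
  have h0 : 0 < td N := lt_of_lt_of_le one_pos (td_ge_one95 hN)
  have hwu := DD_le_univ58 Ω hw
  have hfw : Mq (td N) Ω (fn w) := Mq_fn95 hN hΩ hwu h0 hts
  rw [inner_sub_left, real_inner_smul_left]
  have h1 := (weak_pair hN hm hg hΨ hw).2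
  have h2 := (weak_pair hN hm hfw (T_weak hN hm hfw) hΨ.1).2
  rw [real_inner_comm, h1, h2]
  congr 2
  refine setIntegral_congr_ae hm ?_
  filter_upwards [hfn] with x hx hxΩ
  rw [hx, indicator_of_mem hxΩ, mul_comm]

end Pool.Agent.helper13.BN
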