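import Pool.Agent.helper95.BN.LLa

set_option autoImplicit false
open MeasureTheory Filter Topology Set Metric
open scoped ContDiff Gradient RealInnerProductSpace ENNReal

noncomputable section
namespace Pool.Agent.helper13.BN
variable {N : ℕ}

theorem exp_neg_lt_one95 {L : ℝ} (hL : 0 < L) : Real.exp (-L) < 1 := by
  rw [Real.exp_lt_one_iff]
  linarith

/-- modes with different indices are orthogonal -/
theorem eig_mode_orth95 (hN : 3 ≤ N) {e : E N} (he : ‖e‖ = 1) {k j : ℕ} (hkj : k ≠ j)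
    {lam L : ℝ} (hL : 0 < L) (hz : yf (k + cc N) lam L = 0) {Ψ : LV N}
    (hΨ : Ψ ∈ DD (ann N (Real.exp (-L)))) {y : ℝ → ℝ} (hy : Continuous y)
    (hfn : fn Ψ =ᵐ[volume] (ann N (Real.exp (-L))).indicator (cyl N e y (Pz N j))) :
    ⟪eig e k lam L, Ψ⟫ = 0 := by
  rw [eig_inner hN he hL hz hΨ]
  have h1 : ∫ x in ann N (Real.exp (-L)), cyl N e (yf (k + cc N) lam) (Pz N k) x * fn Ψ x
      = ∫ x in ann N (Real.exp (-L)),
        cyl N e (yf (k + cc N) lam) (Pz N k) x * cyl N e y (Pz N j) x := by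
    refine setIntegral_congr_ae (meas_ann95 N _) ?_
    filter_upwards [hfn] with x hx hxΩ
    rw [hx, indicator_of_mem hxΩ]
  rw [h1, cyl_orth hN he (Real.exp_pos _) (exp_neg_lt_one95 hL) hkj
    (yf_contDiff _ _).continuous hy, mul_zero]

/-- measurability of a mode -/
theorem cyl_aesm95 {L : ℝ} (e : E N) {y : ℝ → ℝ} (hy : Continuous y) (j : ℕ) :
    AEStronglyMeasurable (cyl N e y (Pz N j)) (volume.restrict (ann N (Real.exp (-L)))) :=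
  (cyl_memLp (Real.exp_pos _) e hy j 2).1

/-- bound of a mode on the annulus -/
theorem cyl_bd95 (hN : 3 ≤ N) {e : E N} (he : ‖e‖ = 1) {L : ℝ} (j : ℕ) {y : ℝ → ℝ}
    {B : ℝ} (hB : ∀ t ∈ Icc 0 L, |y t| ≤ B) :
    ∀ x ∈ ann N (Real.exp (-L)), |cyl N e y (Pz N j) x| ≤ Real.exp (-L) ^ (-cc N) * B := by
  refine cyl_bound95 hN he (Real.exp_pos _) j ?_
  rw [Real.log_exp, neg_neg]
  exact hB

/-- norm of the weak solution given by a mode -/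
theorem mode_norm95 (hN : 3 ≤ N) : ∃ C : ℝ, 0 < C ∧ ∀ (Ω : Set (E N)), Ω ⊆ ball 0 1 →
    MeasurableSet Ω → ∀ (Ψ : LV N) (g : E N → ℝ) (B : ℝ),
      AEStronglyMeasurable g (volume.restrict Ω) → 0 ≤ B → (∀ x ∈ Ω, |g x| ≤ B) →
      Weak Ω Ψ g → ‖Ψ‖ ≤ C * B := by
  obtain ⟨C, hC, h⟩ := exists_nq_bdd95 N (td_ge_one95 hN)
  refine ⟨SS N * C, mul_pos SS_pos hC, fun Ω hΩ hm Ψ g B hg hB hgB hw => ?_⟩
  obtain ⟨h1, h2⟩ := h Ω hΩ hm g B hg hB hgB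
  rw [weak_iff_T hN hm h1] at hw
  rw [hw]
  calc ‖T Ω g‖ ≤ SS N * nq (td N) Ω g := T_norm hN hm h1
    _ ≤ SS N * (C * B) := mul_le_mul_of_nonneg_left h2 SS_pos.le
    _ = SS N * C * B := by ring

/-- integral of a bounded function against `fn w` -/
theorem int_bd95 (hN : 3 ≤ N) : ∃ C : ℝ, 0 < C ∧ ∀ (Ω : Set (E N)), Ω ⊆ ball 0 1 →
    MeasurableSet Ω → ∀ (w : LV N) (g : E N → ℝ) (B : ℝ),
      AEStronglyMeasurable g (volume.restrict Ω) → 0 ≤ B → (∀ x ∈ Ω, |g x| ≤ B) →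
      w ∈ DD Ω → Integrable (fun x => g x * fn w x) (volume.restrict Ω) ∧
        |∫ x in Ω, g x * fn w x| ≤ C * B * ‖w‖ := by
  obtain ⟨C, hC, h⟩ := exists_nq_bdd95 N (td_ge_one95 hN)
  refine ⟨SS N * C, mul_pos SS_pos hC, fun Ω hΩ hm w g B hg hB hgB hw => ?_⟩
  obtain ⟨h1, h2⟩ := h Ω hΩ hm g B hg hB hgB
  obtain ⟨h3, h4⟩ := bound58 hN h1 (DD_le_univ58 Ω hw)
  refine ⟨h3, h4.trans ?_⟩
  have : SS N * nq (td N) Ω g ≤ SS N * C * B := by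
    calc SS N * nq (td N) Ω g ≤ SS N * (C * B) := mul_le_mul_of_nonneg_left h2 SS_pos.le
      _ = SS N * C * B := by ring
  exact mul_le_mul_of_nonneg_right this (norm_nonneg _)

/-- the nonresonant case -/
theorem nonres_static95 (hN : 3 ≤ N) {e : E N} (he : ‖e‖ = 1) {j : ℕ} {lam' L : ℝ} (hL : 0 < L)
    {y h : ℝ → ℝ} (hy : ContDiff ℝ ∞ y) (hh : ContDiff ℝ ∞ h) (hy0 : y 0 = 0) (hyL : y L = 0)
    (hode : ∀ t, deriv (deriv y) t = qf (j + cc N) lam' t * y t - Real.exp (-2 * t) * h t) :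
    ∃ Ψ : LV N, Weak (ann N (Real.exp (-L))) Ψ
        (fun x => lam' * cyl N e y (Pz N j) x + cyl N e h (Pz N j) x) ∧
      fn Ψ =ᵐ[volume] (ann N (Real.exp (-L))).indicator (cyl N e y (Pz N j)) ∧
      ∀ w ∈ DD (ann N (Real.exp (-L))), ∫ x in ann N (Real.exp (-L)),
          cyl N e h (Pz N j) x * fn w x
        = ⟪w - lam' • T (ann N (Real.exp (-L))) (fn w), Ψ⟫ := by
  obtain ⟨Ψ, hΨ, hfn⟩ := mode_weak95 hN he j hL hy hy0 hyL hode
  refine ⟨Ψ, hΨ, hfn, fun w hw => ?_⟩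
  have hg1 : Mq (td N) (ann N (Real.exp (-L))) (cyl N e y (Pz N j)) :=
    cyl_memLp (Real.exp_pos _) e hy.continuous j _
  have hg2 : Mq (td N) (ann N (Real.exp (-L))) (cyl N e h (Pz N j)) :=
    cyl_memLp (Real.exp_pos _) e hh.continuous j _
  have hg : Mq (td N) (ann N (Real.exp (-L)))
      (fun x => lam' * cyl N e y (Pz N j) x + cyl N e h (Pz N j) x) :=
    (hg1.const_mul lam').add hg2
  rw [pair_core95 hN (ann_sub_ball95 N _) (meas_ann95 N _) hg hΨ hfn hw lam']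
  obtain ⟨i1, -⟩ := bound58 hN hg1 (DD_le_univ58 _ hw)
  obtain ⟨i2, -⟩ := bound58 hN hg2 (DD_le_univ58 _ hw)
  have : ∫ x in ann N (Real.exp (-L)),
      (lam' * cyl N e y (Pz N j) x + cyl N e h (Pz N j) x) * fn w x
      = lam' * (∫ x in ann N (Real.exp (-L)), cyl N e y (Pz N j) x * fn w x)
        + ∫ x in ann N (Real.exp (-L)), cyl N e h (Pz N j) x * fn w x := by
    rw [← integral_const_mul, ← integral_add (i1.const_mul lam') i2]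
    congr 1
    funext x
    ring
  rw [this]
  ring

/-- the resonant case -/
theorem res_static95 (hN : 3 ≤ N) {e : E N} (he : ‖e‖ = 1) {k : ℕ} {lamk L : ℝ} (hL : 0 < L)
    (hz : yf (k + cc N) lamk L = 0) (hlam : lamk ≠ 0) (lam' m : ℝ)
    {y h : ℝ → ℝ} (hy : ContDiff ℝ ∞ y) (hh : ContDiff ℝ ∞ h) (hy0 : y 0 = 0) (hyL : y L = 0)
    (hode : ∀ t, deriv (deriv y) t = qf (k + cc N) lamk t * y t
      - Real.exp (-2 * t) * (h t - m * yf (k + cc N) lamk t)) :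
    ∃ Ψ : LV N, Weak (ann N (Real.exp (-L))) Ψ
        (fun x => lamk * cyl N e y (Pz N k) x
          + cyl N e (fun t => h t - m * yf (k + cc N) lamk t) (Pz N k) x) ∧
      fn Ψ =ᵐ[volume] (ann N (Real.exp (-L))).indicator (cyl N e y (Pz N k)) ∧
      ∀ w ∈ DD (ann N (Real.exp (-L))), ∫ x in ann N (Real.exp (-L)),
          cyl N e h (Pz N k) x * fn w x
        = ⟪w - lam' • T (ann N (Real.exp (-L))) (fn w), Ψ⟫
          - (lamk - lam') * (∫ x in ann N (Real.exp (-L)), cyl N e y (Pz N k) x * fn w x)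
          + m / lamk * ⟪eig e k lamk L, w⟫ := by
  have hh' : ContDiff ℝ ∞ (fun t => h t - m * yf (k + cc N) lamk t) :=
    hh.sub (contDiff_const.mul (yf_contDiff _ _))
  obtain ⟨Ψ, hΨ, hfn⟩ := mode_weak95 hN he k hL hy hy0 hyL hode
  refine ⟨Ψ, hΨ, hfn, fun w hw => ?_⟩
  have hg1 : Mq (td N) (ann N (Real.exp (-L))) (cyl N e y (Pz N k)) :=
    cyl_memLp (Real.exp_pos _) e hy.continuous k _
  have hg2 : Mq (td N) (ann N (Real.exp (-L))) (cyl N e h (Pz N k)) :=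
    cyl_memLp (Real.exp_pos _) e hh.continuous k _
  have hg3 : Mq (td N) (ann N (Real.exp (-L))) (cyl N e (yf (k + cc N) lamk) (Pz N k)) :=
    cyl_memLp (Real.exp_pos _) e (yf_contDiff _ _).continuous k _
  have hg4 : Mq (td N) (ann N (Real.exp (-L)))
      (cyl N e (fun t => h t - m * yf (k + cc N) lamk t) (Pz N k)) :=
    cyl_memLp (Real.exp_pos _) e hh'.continuous k _
  have hg : Mq (td N) (ann N (Real.exp (-L)))
      (fun x => lamk * cyl N e y (Pz N k) x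
        + cyl N e (fun t => h t - m * yf (k + cc N) lamk t) (Pz N k) x) :=
    (hg1.const_mul lamk).add hg4
  rw [pair_core95 hN (ann_sub_ball95 N _) (meas_ann95 N _) hg hΨ hfn hw lam',
    eig_inner hN he hL hz hw]
  obtain ⟨i1, -⟩ := bound58 hN hg1 (DD_le_univ58 _ hw)
  obtain ⟨i2, -⟩ := bound58 hN hg2 (DD_le_univ58 _ hw)
  obtain ⟨i3, -⟩ := bound58 hN hg3 (DD_le_univ58 _ hw)
  have : ∫ x in ann N (Real.exp (-L)),
      (lamk * cyl N e y (Pz N k) x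
        + cyl N e (fun t => h t - m * yf (k + cc N) lamk t) (Pz N k) x) * fn w x
      = lamk * (∫ x in ann N (Real.exp (-L)), cyl N e y (Pz N k) x * fn w x)
        + ((∫ x in ann N (Real.exp (-L)), cyl N e h (Pz N k) x * fn w x)
          - m * ∫ x in ann N (Real.exp (-L)),
              cyl N e (yf (k + cc N) lamk) (Pz N k) x * fn w x) := by
    have i4 : Integrable (fun x => cyl N e h (Pz N k) x * fn w x
        - m * (cyl N e (yf (k + cc N) lamk) (Pz N k) x * fn w x))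
        (volume.restrict (ann N (Real.exp (-L)))) := i2.sub (i3.const_mul m)
    rw [← integral_const_mul, ← integral_const_mul, ← integral_sub i2 (i3.const_mul m),
      ← integral_add (i1.const_mul lamk) i4]
    congr 1
    funext x
    unfold cyl
    ring
  rw [this]
  field_simp
  ring

/-- pairing of the residual with the projection of `Ψ` orthogonally to `F` -/
theorem proj_pair95 {H : Type*} [NormedAddCommGroup H] [InnerProductSpace ℝ H] {r F F' Ψ : H}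
    {a b : ℝ} (hF : F ≠ 0) (h1 : ⟪F', Ψ⟫ = 0) (h2 : ⟪F', F⟫ = 0) :
    |⟪r + a • F + b • F', Ψ⟫| ≤ 2 * ‖r‖ * ‖Ψ‖ + ‖Ψ‖ / ‖F‖ * |⟪r + a • F + b • F', F⟫| := by
  have hn : 0 < ‖F‖ := norm_pos_iff.2 hF
  have hFF : ⟪F, F⟫ = ‖F‖ ^ 2 := real_inner_self_eq_norm_sq F
  have e1 : ⟪r + a • F + b • F', Ψ⟫ = ⟪r, Ψ⟫ + a * ⟪F, Ψ⟫ := by
    rw [inner_add_left, inner_add_left, real_inner_smul_left, real_inner_smul_left, h1]
    ring
  have e2 : ⟪r + a • F + b • F', F⟫ = ⟪r, F⟫ + a * ‖F‖ ^ 2 := by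
    rw [inner_add_left, inner_add_left, real_inner_smul_left, real_inner_smul_left, h2, hFF]
    ring
  have e3 : ⟪r + a • F + b • F', Ψ⟫ = ⟪r, Ψ⟫ - ⟪F, Ψ⟫ / ‖F‖ ^ 2 * ⟪r, F⟫
      + ⟪F, Ψ⟫ / ‖F‖ ^ 2 * ⟪r + a • F + b • F', F⟫ := by
    rw [e1, e2]
    field_simp
    ring
  have b1 : |⟪r, Ψ⟫| ≤ ‖r‖ * ‖Ψ‖ := abs_real_inner_le_norm r Ψ
  have b2 : |⟪F, Ψ⟫ / ‖F‖ ^ 2| ≤ ‖Ψ‖ / ‖F‖ := by
    rw [abs_div, abs_of_pos (by positivity : (0 : ℝ) < ‖F‖ ^ 2), div_le_div_iff₀ (by positivity) hn]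
    have := abs_real_inner_le_norm F Ψ
    nlinarith
  have b3 : |⟪F, Ψ⟫ / ‖F‖ ^ 2 * ⟪r, F⟫| ≤ ‖r‖ * ‖Ψ‖ := by
    rw [abs_mul]
    calc |⟪F, Ψ⟫ / ‖F‖ ^ 2| * |⟪r, F⟫| ≤ ‖Ψ‖ / ‖F‖ * (‖r‖ * ‖F‖) :=
          mul_le_mul b2 (abs_real_inner_le_norm r F) (abs_nonneg _) (by positivity)
      _ = ‖r‖ * ‖Ψ‖ := by field_simp
  have b4 : |⟪F, Ψ⟫ / ‖F‖ ^ 2 * ⟪r + a • F + b • F', F⟫|
      ≤ ‖Ψ‖ / ‖F‖ * |⟪r + a • F + b • F', F⟫| := by
    rw [abs_mul]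
    exact mul_le_mul_of_nonneg_right b2 (abs_nonneg _)
  rw [e3]
  calc |⟪r, Ψ⟫ - ⟪F, Ψ⟫ / ‖F‖ ^ 2 * ⟪r, F⟫ + ⟪F, Ψ⟫ / ‖F‖ ^ 2 * ⟪r + a • F + b • F', F⟫|
      ≤ |⟪r, Ψ⟫ - ⟪F, Ψ⟫ / ‖F‖ ^ 2 * ⟪r, F⟫|
        + |⟪F, Ψ⟫ / ‖F‖ ^ 2 * ⟪r + a • F + b • F', F⟫| := abs_add_le _ _
    _ ≤ (|⟪r, Ψ⟫| + |⟪F, Ψ⟫ / ‖F‖ ^ 2 * ⟪r, F⟫|)
        + |⟪F, Ψ⟫ / ‖F‖ ^ 2 * ⟪r + a • F + b • F', F⟫| := by
        gcongr
        exact abs_sub _ _
    _ ≤ 2 * ‖r‖ * ‖Ψ‖ + ‖Ψ‖ / ‖F‖ * |⟪r + a • F + b • F', F⟫| := by linarith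

/-- pairing of the residual with an eigenfunction -/
theorem eig_res95 (hN : 3 ≤ N) {e : E N} (he : ‖e‖ = 1) {k : ℕ} {lamk L : ℝ} (hL : 0 < L)
    (hz : yf (k + cc N) lamk L = 0) (hlam : lamk ≠ 0) (lam' : ℝ) {w : LV N}
    (hw : w ∈ DD (ann N (Real.exp (-L)))) :
    ⟪w - lam' • T (ann N (Real.exp (-L))) (fn w), eig e k lamk L⟫
      = (1 - lam' / lamk) * ⟪eig e k lamk L, w⟫ := by
  obtain ⟨h1, h2, h3⟩ := eig_spec hN he hL hz
  have hg : Mq (td N) (ann N (Real.exp (-L)))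
      (fun x => lamk * cyl N e (yf (k + cc N) lamk) (Pz N k) x) :=
    (cyl_memLp (Real.exp_pos _) e (yf_contDiff _ _).continuous k _).const_mul _
  rw [pair_core95 hN (ann_sub_ball95 N _) (meas_ann95 N _) hg h3 h2 hw lam', eig_inner hN he hL hz hw]
  have : ∫ x in ann N (Real.exp (-L)),
      lamk * cyl N e (yf (k + cc N) lamk) (Pz N k) x * fn w x
      = lamk * ∫ x in ann N (Real.exp (-L)), cyl N e (yf (k + cc N) lamk) (Pz N k) x * fn w x := by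
    rw [← integral_const_mul]
    congr 1
    funext x
    ring
  rw [this]
  field_simp

end Pool.Agent.helper13.BN
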