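import Pool.Agent.helper95.BN.LLb

set_option autoImplicit false
open MeasureTheory Filter Topology Set Metric
open scoped ContDiff Gradient RealInnerProductSpace ENNReal

noncomputable section
namespace Pool.Agent.helper13.BN
variable {N : ℕ}

/-- the residual -/
def Cr.res95 (D : Cr N) (e : E N) (i : ℕ) (lam' : ℝ) (w : LV N) (c1 c2 : ℝ) : LV N :=
  w - lam' • T (D.Om i) (fn w) - c1 • D.F1 e i - c2 • D.F2 e i

theorem Cr.res_eq95 (D : Cr N) (e : E N) (i : ℕ) (lam' : ℝ) (w : LV N) (c1 c2 : ℝ) :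
    w - lam' • T (D.Om i) (fn w) = D.res95 e i lam' w c1 c2 + c1 • D.F1 e i + c2 • D.F2 e i := by
  unfold Cr.res95
  abel

theorem Cr.hz195 (D : Cr N) (i : ℕ) : yf (((0 : ℕ) : ℝ) + cc N) (D.lam1 i) (D.Ls i) = 0 := by
  rw [Nat.cast_zero, zero_add]
  exact D.z1 i

theorem Cr.F1_ne95 (D : Cr N) {e : E N} {i : ℕ} {C : ℝ} (hC : 0 < C) (h : C⁻¹ ≤ ‖D.F1 e i‖) :
    D.F1 e i ≠ 0 := norm_pos_iff.1 (lt_of_lt_of_le (by positivity) h)

theorem exists_bd95 (y : ℝ → ℝ) (hy : Continuous y) (R : ℝ) : ∃ B : ℝ, 0 < B ∧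
    ∀ t ∈ Icc 0 R, |y t| ≤ B := by
  obtain ⟨B, hB⟩ := (isCompact_Icc (a := (0 : ℝ)) (b := R)).exists_bound_of_continuousOn
    hy.continuousOn
  exact ⟨max B 1, lt_of_lt_of_le one_pos (le_max_right _ _),
    fun t ht => (hB t ht).trans (le_max_left _ _)⟩

theorem near_L95 (D : Cr N) {δ : ℝ} (hδ : 0 < δ) : ∀ᶠ i in atTop, |D.Ls i - D.L| < δ := by
  have := D.tL.eventually (Metric.ball_mem_nhds D.L hδ)
  filter_upwards [this] with i hi
  simpa [Real.dist_eq] using hi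

/-- uniform weight bound -/
theorem rpow_bd95 (hN : 3 ≤ N) {L R : ℝ} (h : L ≤ R) :
    Real.exp (-L) ^ (-cc N) ≤ Real.exp (-R) ^ (-cc N) :=
  Real.rpow_le_rpow_of_nonpos (Real.exp_pos _) (Real.exp_le_exp.2 (by linarith))
    (by have := cc_pos95 hN; linarith)

/-- testing with a nonresonant mode -/
theorem mode_nonres95 (hN : 3 ≤ N) (D : Cr N) {e : E N} (he : ‖e‖ = 1) {j : ℕ} (hj0 : j ≠ 0)
    (hjl : j ≠ D.l) {h : ℝ → ℝ} (hh : ContDiff ℝ ∞ h) :
    ∃ B δ : ℝ, 0 < B ∧ 0 < δ ∧ ∀ᶠ i in atTop, ∀ lam' : ℝ, |lam' - D.lam| < δ →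
      ∀ w ∈ DD (D.Om i), ∀ c1 c2 : ℝ,
        |∫ x in D.Om i, cyl N e h (Pz N j) x * fn w x| ≤ B * ‖D.res95 e i lam' w c1 c2‖ := by
  obtain ⟨δ, C, hδ, hC, hδL, hsol⟩ := dirichlet_solve (j + cc N) D.hL (D.nonres j hj0 hjl)
  obtain ⟨Bh, hBh, hbh⟩ := exists_bd95 h hh.continuous (D.L + 1)
  obtain ⟨C2, hC2, hnorm⟩ := mode_norm95 hN
  set W : ℝ := Real.exp (-(D.L + 1)) ^ (-cc N) with hW
  have hW0 : 0 < W := by positivity
  refine ⟨C2 * ((|D.lam| + 1) * (W * (C * Bh)) + W * Bh), min δ 1, by positivity,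
    lt_min hδ one_pos, ?_⟩
  filter_upwards [near_L95 D hδ, near_L95 D one_pos] with i hi hi1 lam' hlam' w hw c1 c2
  obtain ⟨y, hy, hy0, hyL, hode, hyb⟩ := hsol lam' (D.Ls i) (lt_of_lt_of_le hlam' (min_le_left _ _))
    hi h hh Bh hbh
  obtain ⟨Ψ, hΨ, hfn, hint⟩ := nonres_static95 hN he (D.posL i) hy hh hy0 hyL hode
  have hLi : D.Ls i ≤ D.L + 1 := by
    have := (abs_lt.1 hi1).2
    linarith
  have hWi := rpow_bd95 hN hLi
  have b1 : ∀ x ∈ ann N (Real.exp (-(D.Ls i))), |cyl N e y (Pz N j) x| ≤ W * (C * Bh) := by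
    intro x hx
    refine (cyl_bd95 hN he j (fun t ht => (hyb t ht).1) x hx).trans ?_
    exact mul_le_mul_of_nonneg_right hWi (by positivity)
  have b2 : ∀ x ∈ ann N (Real.exp (-(D.Ls i))), |cyl N e h (Pz N j) x| ≤ W * Bh := by
    intro x hx
    refine (cyl_bd95 hN he j (fun t ht => hbh t ⟨ht.1, ht.2.trans hLi⟩) x hx).trans ?_
    exact mul_le_mul_of_nonneg_right hWi hBh.le
  have hl' : |lam'| ≤ |D.lam| + 1 := by
    have h1 := (lt_of_lt_of_le hlam' (min_le_right _ _)).le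
    have h2 := abs_sub_abs_le_abs_sub lam' D.lam
    linarith
  have hΨn : ‖Ψ‖ ≤ C2 * ((|D.lam| + 1) * (W * (C * Bh)) + W * Bh) := by
    refine hnorm _ (ann_sub_ball95 N _) (meas_ann95 N _) Ψ _ _ ?_ (by positivity) ?_ hΨ
    · exact ((cyl_aesm95 e hy.continuous j).const_mul lam').add (cyl_aesm95 e hh.continuous j)
    · intro x hx
      refine (abs_add_le _ _).trans (add_le_add ?_ (b2 x hx))
      rw [abs_mul]
      exact mul_le_mul hl' (b1 x hx) (abs_nonneg _) (by positivity)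
  have o1 : ⟪D.F1 e i, Ψ⟫ = 0 :=
    eig_mode_orth95 hN he (Ne.symm hj0) (D.posL i) (D.hz195 i) hΨ.1 hy.continuous hfn
  have o2 : ⟪D.F2 e i, Ψ⟫ = 0 :=
    eig_mode_orth95 hN he (Ne.symm hjl) (D.posL i) (D.z2 i) hΨ.1 hy.continuous hfn
  have hkey : ∫ x in D.Om i, cyl N e h (Pz N j) x * fn w x = ⟪D.res95 e i lam' w c1 c2, Ψ⟫ := by
    have h1 := hint w hw
    have h2 : w - lam' • T (ann N (Real.exp (-(D.Ls i)))) (fn w)
      = D.res95 e i lam' w c1 c2 + c1 • D.F1 e i + c2 • D.F2 e i := D.res_eq95 e i lam' w c1 c2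
    rw [h2, inner_add_left, inner_add_left, real_inner_smul_left, real_inner_smul_left, o1, o2,
      mul_zero, mul_zero, add_zero, add_zero] at h1
    exact h1
  rw [hkey]
  calc |⟪D.res95 e i lam' w c1 c2, Ψ⟫| ≤ ‖D.res95 e i lam' w c1 c2‖ * ‖Ψ‖ := abs_real_inner_le_norm _ _
    _ ≤ ‖D.res95 e i lam' w c1 c2‖ * (C2 * ((|D.lam| + 1) * (W * (C * Bh)) + W * Bh)) :=
        mul_le_mul_of_nonneg_left hΨn (norm_nonneg _)
    _ = _ := mul_comm _ _

/-- testing with a resonant mode, general form -/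
theorem mode_res95 (hN : 3 ≤ N) (D : Cr N) {e : E N} (he : ‖e‖ = 1) {k k' : ℕ} (hkk : k' ≠ k)
    (Lam Lam' : ℕ → ℝ) (hz : ∀ i, yf (k + cc N) (Lam i) (D.Ls i) = 0)
    (hz' : ∀ i, yf (k' + cc N) (Lam' i) (D.Ls i) = 0)
    (hlim : Tendsto Lam atTop (𝓝 D.lam)) {c n0 : ℝ} (hc : 0 < c) (hn0 : 0 < n0)
    (hF : ∀ᶠ i in atTop, c ≤ ‖eig e k (Lam i) (D.Ls i)‖)
    (hn : ∀ᶠ i in atTop, n0 ≤ ∫ t in (0 : ℝ)..(D.Ls i),
      Real.exp (-2 * t) * yf (k + cc N) (Lam i) t ^ 2)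
    {h : ℝ → ℝ} (hh : ContDiff ℝ ∞ h) :
    ∃ B : ℝ, 0 < B ∧ ∀ ε > 0, ∃ δ > 0, ∀ᶠ i in atTop, ∀ lam' : ℝ, |lam' - D.lam| < δ →
      ∀ w ∈ DD (D.Om i), ∀ (r : LV N) (a b : ℝ), w - lam' • T (D.Om i) (fn w)
          = r + a • eig e k (Lam i) (D.Ls i) + b • eig e k' (Lam' i) (D.Ls i) →
        |∫ x in D.Om i, cyl N e h (Pz N k) x * fn w x|
          ≤ B * ‖r‖ + ε * ‖w‖ + B * |⟪eig e k (Lam i) (D.Ls i), w⟫| := by
  obtain ⟨Bh, hBh, hbh⟩ := exists_bd95 h hh.continuous (D.L + 1)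
  obtain ⟨Cs, hCs, hsol⟩ := dirichlet_solve_res (k + cc N) (D.L + 1) (|D.lam| + 1)
  obtain ⟨C2, hC2, hnorm⟩ := mode_norm95 hN
  obtain ⟨C3, hC3, hint3⟩ := int_bd95 hN
  set W : ℝ := Real.exp (-(D.L + 1)) ^ (-cc N) with hW
  have hW0 : 0 < W := by positivity
  -- uniform bound of `yf`
  obtain ⟨By, hBy, hby⟩ : ∃ By : ℝ, 0 < By ∧ ∀ lam t : ℝ, |lam - D.lam| ≤ 1 → t ∈ Icc 0 (D.L + 1) →
      |yf (k + cc N) lam t| ≤ By := by
    have hK : IsCompact (Icc (D.lam - 1) (D.lam + 1) ×ˢ Icc 0 (D.L + 1) : Set (ℝ × ℝ)) :=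
      isCompact_Icc.prod isCompact_Icc
    obtain ⟨B, hB⟩ := hK.exists_bound_of_continuousOn (yf_continuous (k + cc N)).1.continuousOn
    refine ⟨max B 1, lt_of_lt_of_le one_pos (le_max_right _ _), fun lam t hl ht => ?_⟩
    have hl' := abs_le.1 hl
    exact (hB (lam, t) ⟨⟨by linarith, by linarith⟩, ht⟩).trans (le_max_left _ _)
  have hL1 : 0 < D.L + 1 := by have := D.hL; linarith
  -- bound of the projection coefficient
  set Bm : ℝ := (D.L + 1) * (Bh * By) / n0 with hBm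
  have hBm0 : 0 < Bm := by positivity
  set B' : ℝ := Bh + Bm * By with hB'
  have hB'0 : 0 < B' := by positivity
  set BΨ : ℝ := C2 * ((|D.lam| + 1) * (W * (Cs * B')) + W * B') with hBΨ
  have hBΨ0 : 0 < BΨ := by positivity
  have hlam := D.hlam
  set B : ℝ := 2 * BΨ + BΨ / c * (1 + (|D.lam| + 1) / (D.lam / 2)) + Bm / (D.lam / 2) with hB
  have hB0 : 0 < B := by positivity
  refine ⟨B, hB0, fun ε hε => ?_⟩
  set δ0 : ℝ := ε / (2 * (C3 * (W * (Cs * B')))) with hδ0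
  have hδ0p : 0 < δ0 := by positivity
  refine ⟨min δ0 1, lt_min hδ0p one_pos, ?_⟩
  have hLamnear : ∀ᶠ i in atTop, |Lam i - D.lam| < min (min δ0 1) (D.lam / 2) := by
    have := hlim.eventually (Metric.ball_mem_nhds D.lam
      (lt_min (lt_min hδ0p one_pos) (half_pos hlam)))
    filter_upwards [this] with i hi
    simpa [Real.dist_eq] using hi
  filter_upwards [near_L95 D one_pos, hLamnear, hF, hn] with i hi1 hLi' hFi hni lam' hlam' w hw r a b
    hr
  have hLi : D.Ls i ≤ D.L + 1 := by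
    have := (abs_lt.1 hi1).2
    linarith
  have hLam1 : |Lam i - D.lam| ≤ 1 :=
    (hLi'.trans_le ((min_le_left _ _).trans (min_le_right _ _))).le
  have hLamδ : |Lam i - D.lam| < δ0 :=
    hLi'.trans_le ((min_le_left _ _).trans (min_le_left _ _))
  have hLamhalf : D.lam / 2 < Lam i := by
    have := (abs_lt.1 (hLi'.trans_le (min_le_right _ _))).1
    linarith
  have hLampos : 0 < Lam i := by linarith
  have hLamabs : |Lam i| ≤ |D.lam| + 1 := by
    have h2 := abs_sub_abs_le_abs_sub (Lam i) D.lam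
    linarith
  have hl' : |lam'| ≤ |D.lam| + 1 := by
    have h1 := (lt_of_lt_of_le hlam' (min_le_right _ _)).le
    have h2 := abs_sub_abs_le_abs_sub lam' D.lam
    linarith
  set Y : ℝ → ℝ := yf (k + cc N) (Lam i) with hY
  have hYc : ContDiff ℝ ∞ Y := yf_contDiff _ _
  set n : ℝ := ∫ t in (0 : ℝ)..(D.Ls i), Real.exp (-2 * t) * Y t ^ 2 with hndef
  have hnpos : 0 < n := lt_of_lt_of_le hn0 hni
  set p : ℝ := ∫ t in (0 : ℝ)..(D.Ls i), Real.exp (-2 * t) * (h t * Y t) with hp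
  set m : ℝ := p / n with hm
  have hpb : |p| ≤ (D.L + 1) * (Bh * By) := by
    have h1 : ‖∫ t in (0 : ℝ)..(D.Ls i), Real.exp (-2 * t) * (h t * Y t)‖
        ≤ Bh * By * |D.Ls i - 0| := by
      refine intervalIntegral.norm_integral_le_of_norm_le_const fun t ht => ?_
      rw [uIoc_of_le (D.posL i).le] at ht
      have ht' : t ∈ Icc 0 (D.L + 1) := ⟨ht.1.le, ht.2.trans hLi⟩
      rw [norm_mul, norm_mul, Real.norm_eq_abs, Real.norm_eq_abs, Real.norm_eq_abs,
        abs_of_pos (Real.exp_pos _)]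
      have e1 : Real.exp (-2 * t) ≤ 1 := by
        rw [Real.exp_le_one_iff]
        have := ht.1
        linarith
      calc Real.exp (-2 * t) * (|h t| * |Y t|) ≤ 1 * (Bh * By) := by
            refine mul_le_mul e1 ?_ (by positivity) one_pos.le
            exact mul_le_mul (hbh t ht') (hby _ t hLam1 ht') (abs_nonneg _) hBh.le
        _ = Bh * By := one_mul _
    rw [sub_zero, abs_of_pos (D.posL i)] at h1
    refine h1.trans ?_
    rw [mul_comm]
    exact mul_le_mul_of_nonneg_right hLi (by positivity)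
  have hmb : |m| ≤ Bm := by
    rw [hm, abs_div, abs_of_pos hnpos, hBm]
    exact div_le_div₀ (by positivity) hpb hn0 hni
  have horth : ∫ t in (0 : ℝ)..(D.Ls i), Real.exp (-2 * t) * ((h t - m * Y t) * Y t) = 0 := by
    have hi1 : IntervalIntegrable (fun t => Real.exp (-2 * t) * (h t * Y t)) volume 0 (D.Ls i) := by
      refine Continuous.intervalIntegrable ?_ _ _
      have := hh.continuous
      have := hYc.continuous
      fun_prop
    have hi2 : IntervalIntegrable (fun t => Real.exp (-2 * t) * Y t ^ 2) volume 0 (D.Ls i) := by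
      refine Continuous.intervalIntegrable ?_ _ _
      have := hYc.continuous
      fun_prop
    have : (fun t => Real.exp (-2 * t) * ((h t - m * Y t) * Y t))
        = fun t => Real.exp (-2 * t) * (h t * Y t) - m * (Real.exp (-2 * t) * Y t ^ 2) := by
      funext t
      ring
    rw [this, intervalIntegral.integral_sub hi1 (hi2.const_mul m),
      intervalIntegral.integral_const_mul]
    change p - m * n = 0
    rw [hm, div_mul_cancel₀ _ hnpos.ne', sub_self]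
  have hh' : ContDiff ℝ ∞ (fun t => h t - m * Y t) := hh.sub (contDiff_const.mul hYc)
  have hB'b : ∀ t ∈ Icc 0 (D.L + 1), |h t - m * Y t| ≤ B' := by
    intro t ht
    refine (abs_sub _ _).trans (add_le_add (hbh t ht) ?_)
    rw [abs_mul]
    exact mul_le_mul hmb (hby _ t hLam1 ht) (abs_nonneg _) hBm0.le
  obtain ⟨y, hy, hy0, hyL, hode, hyb⟩ := hsol (Lam i) (D.Ls i) (D.posL i) hLi hLamabs (hz i)
    (fun t => h t - m * Y t) hh' B' hB'b horth
  obtain ⟨Ψ, hΨ, hfn, hint⟩ := res_static95 hN he (D.posL i) (hz i) hLampos.ne' lam' m hy hh hy0 hyL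
    hode
  have hWi := rpow_bd95 hN hLi
  have b1 : ∀ x ∈ ann N (Real.exp (-(D.Ls i))), |cyl N e y (Pz N k) x| ≤ W * (Cs * B') := by
    intro x hx
    refine (cyl_bd95 hN he k (fun t ht => (hyb t ht).1) x hx).trans ?_
    exact mul_le_mul_of_nonneg_right hWi (by positivity)
  have b2 : ∀ x ∈ ann N (Real.exp (-(D.Ls i))),
      |cyl N e (fun t => h t - m * Y t) (Pz N k) x| ≤ W * B' := by
    intro x hx
    refine (cyl_bd95 hN he k (fun t ht => hB'b t ⟨ht.1, ht.2.trans hLi⟩) x hx).trans ?_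
    exact mul_le_mul_of_nonneg_right hWi hB'0.le
  have hΨn : ‖Ψ‖ ≤ BΨ := by
    refine hnorm _ (ann_sub_ball95 N _) (meas_ann95 N _) Ψ _ _ ?_ (by positivity) ?_ hΨ
    · exact ((cyl_aesm95 e hy.continuous k).const_mul (Lam i)).add (cyl_aesm95 e hh'.continuous k)
    · intro x hx
      refine (abs_add_le _ _).trans (add_le_add ?_ (b2 x hx))
      rw [abs_mul]
      exact mul_le_mul hLamabs (b1 x hx) (abs_nonneg _) (by positivity)
  have hspec := eig_spec hN he (D.posL i) (hz i)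
  have hspec' := eig_spec hN he (D.posL i) (hz' i)
  have hmemF : eig e k (Lam i) (D.Ls i) ∈ DD (ann N (Real.exp (-(D.Ls i)))) :=
    ((mem_XS hN).1 hspec.1).1
  have o1 : ⟪eig e k' (Lam' i) (D.Ls i), Ψ⟫ = 0 :=
    eig_mode_orth95 hN he hkk (D.posL i) (hz' i) hΨ.1 hy.continuous hfn
  have o2 : ⟪eig e k' (Lam' i) (D.Ls i), eig e k (Lam i) (D.Ls i)⟫ = 0 :=
    eig_mode_orth95 hN he hkk (D.posL i) (hz' i) hmemF hYc.continuous hspec.2.1
  have hFne : eig e k (Lam i) (D.Ls i) ≠ 0 := norm_pos_iff.1 (lt_of_lt_of_le hc hFi)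
  have hpair := proj_pair95 (r := r) (a := a) (b := b) hFne o1 o2
  have hr' : w - lam' • T (ann N (Real.exp (-(D.Ls i)))) (fn w)
      = r + a • eig e k (Lam i) (D.Ls i) + b • eig e k' (Lam' i) (D.Ls i) := hr
  have hres := eig_res95 hN he (D.posL i) (hz i) hLampos.ne' lam' hw
  rw [← hr', hres] at hpair
  have h1 := hint w hw
  have hfinal : |∫ x in ann N (Real.exp (-(D.Ls i))), cyl N e h (Pz N k) x * fn w x|
      ≤ B * ‖r‖ + ε * ‖w‖ + B * |⟪eig e k (Lam i) (D.Ls i), w⟫| := by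
    rw [h1]
    set I1 : ℝ := ∫ x in ann N (Real.exp (-(D.Ls i))), cyl N e y (Pz N k) x * fn w x with hI1
    set q : ℝ := ⟪eig e k (Lam i) (D.Ls i), w⟫ with hq
    set P0 : ℝ := ⟪w - lam' • T (ann N (Real.exp (-(D.Ls i)))) (fn w), Ψ⟫ with hP0
    have hI1b : |I1| ≤ C3 * (W * (Cs * B')) * ‖w‖ :=
      (hint3 _ (ann_sub_ball95 N _) (meas_ann95 N _) w _ _ (cyl_aesm95 e hy.continuous k)
        (by positivity) b1 hw).2
    have hdiff : |Lam i - lam'| ≤ 2 * δ0 := by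
      have h1 : Lam i - lam' = (Lam i - D.lam) - (lam' - D.lam) := by ring
      rw [h1]
      refine (abs_sub _ _).trans ?_
      have := lt_of_lt_of_le hlam' (min_le_left δ0 1)
      linarith
    have t1 : |(Lam i - lam') * I1| ≤ ε * ‖w‖ := by
      rw [abs_mul]
      calc |Lam i - lam'| * |I1| ≤ 2 * δ0 * (C3 * (W * (Cs * B')) * ‖w‖) :=
            mul_le_mul hdiff hI1b (abs_nonneg _) (by positivity)
        _ = ε * ‖w‖ := by
            rw [hδ0]
            field_simp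
    have t2 : |m / Lam i * q| ≤ Bm / (D.lam / 2) * |q| := by
      rw [abs_mul, abs_div, abs_of_pos hLampos]
      refine mul_le_mul_of_nonneg_right ?_ (abs_nonneg _)
      exact div_le_div₀ hBm0.le hmb (by positivity) hLamhalf.le
    have t3 : |1 - lam' / Lam i| ≤ 1 + (|D.lam| + 1) / (D.lam / 2) := by
      refine (abs_sub _ _).trans ?_
      rw [abs_one, abs_div, abs_of_pos hLampos]
      gcongr
    have t4 : |P0| ≤ 2 * BΨ * ‖r‖ + BΨ / c * (1 + (|D.lam| + 1) / (D.lam / 2)) * |q| := by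
      refine hpair.trans (add_le_add ?_ ?_)
      · calc 2 * ‖r‖ * ‖Ψ‖ ≤ 2 * ‖r‖ * BΨ := mul_le_mul_of_nonneg_left hΨn (by positivity)
          _ = 2 * BΨ * ‖r‖ := by ring
      · rw [abs_mul, mul_assoc]
        refine mul_le_mul ?_ (mul_le_mul_of_nonneg_right t3 (abs_nonneg _)) (by positivity)
          (by positivity)
        exact div_le_div₀ hBΨ0.le hΨn hc hFi
    have t5 : |P0 - (Lam i - lam') * I1 + m / Lam i * q| ≤ |P0| + |(Lam i - lam') * I1|
        + |m / Lam i * q| := by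
      refine (abs_add_le _ _).trans ?_
      gcongr
      exact abs_sub _ _
    have hq0 : 0 ≤ |q| := abs_nonneg _
    have hr0 : 0 ≤ ‖r‖ := norm_nonneg _
    have e1 : B * ‖r‖ ≥ 2 * BΨ * ‖r‖ := by
      refine mul_le_mul_of_nonneg_right ?_ hr0
      rw [hB]
      have : 0 ≤ BΨ / c * (1 + (|D.lam| + 1) / (D.lam / 2)) := by positivity
      have : 0 ≤ Bm / (D.lam / 2) := by positivity
      linarith
    have e2 : B * |q| ≥ BΨ / c * (1 + (|D.lam| + 1) / (D.lam / 2)) * |q|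
        + Bm / (D.lam / 2) * |q| := by
      rw [← add_mul]
      refine mul_le_mul_of_nonneg_right ?_ hq0
      rw [hB]
      linarith
    linarith
  exact hfinal

end Pool.Agent.helper13.BN
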